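import Pool.Agent.D0H43.L9.StmC

/-!
# Project L9, module N9: the bordered determinant solves the recursion
-/

set_option autoImplicit false

namespace Pool.Agent.D0H2.L9

open Finset Pool.Agent.D0H43.L9

variable {J R : Type} [DecidableEq J] [Fintype J] [CommRing R]

/-- the bordered Laplacian of `T` (unit rows outside of `T`), with the last row `r` -/
def B (a : J → J → R) (u t : J → R) (T : Finset J) (r : Option J → R) :
    Matrix (Option J) (Option J) R := fun x =>
  match x with
  | none => r
  | some k => if k ∈ T then
      (fun y => match y with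
        | none => -u k
        | some l => if k = l then t k + ∑ m ∈ T.erase k, a k m else -a k l)
      else Pi.single (some k) 1

/-- its determinant -/
def Z (a : J → J → R) (u t : J → R) (T : Finset J) (r : Option J → R) : R := (B a u t T r).det

/-- the unit row -/
def E (x : Option J) : Option J → R := Pi.single x 1

omit [Fintype J] in
lemma B_eq (a : J → J → R) (u t : J → R) (T : Finset J) (r : Option J → R) :
    B a u t T r = (B a u t T 0).updateRow none r := by
  ext x y
  rcases x with _ | k
  · simp [B]
  · simp [B]

lemma Z_add (a : J → J → R) (u t : J → R) (T : Finset J) (r s : Option J → R) :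
    Z a u t T (r + s) = Z a u t T r + Z a u t T s := by
  unfold Z
  rw [B_eq a u t T (r + s), B_eq a u t T r, B_eq a u t T s, Matrix.det_updateRow_add]

lemma Z_smul (a : J → J → R) (u t : J → R) (T : Finset J) (x : R) (r : Option J → R) :
    Z a u t T (x • r) = x * Z a u t T r := by
  unfold Z
  rw [B_eq a u t T (x • r), B_eq a u t T r, Matrix.det_updateRow_smul]

/-- the determinant as a linear map of the last row -/
def ZL (a : J → J → R) (u t : J → R) (T : Finset J) : (Option J → R) →ₗ[R] R where
  toFun := Z a u t T
  map_add' := Z_add a u t T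
  map_smul' x r := by simpa using Z_smul a u t T x r

lemma ZL_apply (a : J → J → R) (u t : J → R) (T : Finset J) (r : Option J → R) :
    ZL a u t T r = Z a u t T r := rfl

lemma Z_out (a : J → J → R) (u t : J → R) {T : Finset J} {k : J} (hk : k ∉ T) :
    Z a u t T (E (some k)) = 0 := by
  unfold Z
  refine Matrix.det_zero_of_row_eq (i := none) (j := some k) (by simp) ?_
  funext y
  simp [B, hk, E]

lemma Z_none (a : J → J → R) (u u' t : J → R) (T : Finset J) :
    Z a u t T (E none) = Z a u' t T (E none) := by
  unfold Z
  refine Matrix.det_eq_of_forall_row_eq_smul_add_const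
    (c := fun x => match x with | none => 0 | some k => if k ∈ T then u' k - u k else 0)
    (k := none) rfl ?_
  intro x y
  rcases x with _ | k
  · simp [B]
  · rcases y with _ | l
    · by_cases hk : k ∈ T
      · simp [B, hk, E]; ring
      · simp [B, hk, E]
    · by_cases hk : k ∈ T <;> simp [B, hk, E]

lemma Z_self (a : J → J → R) (t : J → R) {T : Finset J} {j : J} (hj : j ∈ T) :
    Z a t t T (E (some j)) = Z a t t T (E none) := by
  have h : Z a t t T (E (some j) - E none) = 0 := by
    set v : Option J → R := fun x => match x with | none => 1 | some k => if k ∈ T then 1 else 0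
      with hv
    have h0 : (B a t t T (E (some j) - E none)).mulVec v = 0 := by
      funext x
      rcases x with _ | k
      · simp [Matrix.mulVec, dotProduct, B, Fintype.sum_option, hv, E, Pi.single_apply, hj]
      · by_cases hk : k ∈ T
        · simp only [Matrix.mulVec, dotProduct, B, hk, if_true, Fintype.sum_option, hv, mul_one,
            Pi.zero_apply, mul_ite, mul_zero]
          rw [← sum_filter]
          have e1 : (univ.filter fun l => l ∈ T) = insert k (T.erase k) := by
            rw [insert_erase hk]; ext; simp
          rw [e1, sum_insert (notMem_erase k T)]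
          have e2 : ∑ l ∈ T.erase k, (if k = l then t k + ∑ m ∈ T.erase k, a k m else -a k l) =
              ∑ l ∈ T.erase k, -a k l := by
            refine sum_congr rfl fun l hl => ?_
            rw [if_neg (fun h => (ne_of_mem_erase hl) h.symm)]
          rw [e2, if_pos rfl, sum_neg_distrib]
          ring
        · simp [Matrix.mulVec, dotProduct, B, hv, hk, Pi.single_apply]
    have h1 : (B a t t T (E (some j) - E none)).adjugate.mulVec
        ((B a t t T (E (some j) - E none)).mulVec v) = 0 := by rw [h0, Matrix.mulVec_zero]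
    rw [Matrix.mulVec_mulVec, Matrix.adjugate_mul, Matrix.smul_mulVec, Matrix.one_mulVec] at h1
    have h2 := congrFun h1 none
    simpa [hv, Z] using h2
  have h3 : Z a t t T (E (some j)) =
      Z a t t T (E (some j) - E none) + Z a t t T (E none) := by
    rw [← Z_add]; congr 1; abel
  rw [h3, h, zero_add]

/-- removing the vertex `j` -/
lemma Z_rec (a : J → J → R) (u t : J → R) {T : Finset J} {j : J} (hj : j ∉ T) :
    Z a u t (insert j T) (E (some j)) = u j * Z a u (fun k => t k + a k j) T (E none) +
      ∑ k ∈ T, a j k * Z a u (fun k => t k + a k j) T (E (some k)) := by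
  set t' : J → R := fun k => t k + a k j with ht'
  set A : Matrix (Option J) (Option J) R := B a u t' T 0 with hA
  set F : (Option J → R) → (Option J → R) → R := fun x y =>
    ((A.updateRow none x).updateRow (some j) y).det with hF
  have hadd : ∀ x y z, F x (y + z) = F x y + F x z := fun x y z => by
    simp only [hF]; rw [Matrix.det_updateRow_add]
  have hsmul : ∀ x (c : R) y, F x (c • y) = c * F x y := fun x c y => by
    simp only [hF]; rw [Matrix.det_updateRow_smul]
  have hswap : ∀ x y, F x y = -F y x := by
    intro x y
    have hne : (none : Option J) ≠ some j := by simp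
    have h := Matrix.det_permute (Equiv.swap (none : Option J) (some j))
      ((A.updateRow none y).updateRow (some j) x)
    rw [Equiv.Perm.sign_swap hne] at h
    have e : (((A.updateRow none y).updateRow (some j) x).submatrix
        (Equiv.swap (none : Option J) (some j)) id) = (A.updateRow none x).updateRow (some j) y := by
      ext p s
      rcases p with _ | p
      · simp [Matrix.updateRow_apply]
      · by_cases hp : p = j
        · subst hp; simp [Matrix.updateRow_apply]
        · have h1 : (Equiv.swap (none : Option J) (some j)) (some p) = some p :=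
            Equiv.swap_apply_of_ne_of_ne (by simp) (by simpa using hp)
          simp [Matrix.updateRow_apply, h1, hp]
    rw [e] at h
    simpa [hF] using h
  have hself : ∀ x, F x x = 0 := by
    intro x
    refine Matrix.det_zero_of_row_eq (i := none) (j := some j) (by simp) ?_
    funext s
    simp [Matrix.updateRow_apply]
  have hZ : ∀ x, F x (E (some j)) = Z a u t' T x := by
    intro x
    simp only [hF, Z]
    congr 1
    rw [B_eq a u t' T x]
    ext p s
    rcases p with _ | p
    · simp [Matrix.updateRow_apply]
    · by_cases hp : p = j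
      · subst hp; simp [Matrix.updateRow_apply, B, hj, E]
      · simp [Matrix.updateRow_apply, hp, hA]
  have hrow : Z a u t (insert j T) (E (some j)) = F (E (some j))
      ((t j + ∑ m ∈ T, a j m) • E (some j) + (∑ k ∈ univ.erase j, (-a j k) • E (some k)) +
        (-u j) • E none) := by
    simp only [hF, Z]
    congr 1
    ext p s
    rcases p with _ | p
    · simp [Matrix.updateRow_apply, B]
    · by_cases hp : p = j
      · subst hp
        rcases s with _ | l
        · simp [Matrix.updateRow_apply, B, E, Finset.sum_apply]
        · by_cases hl : p = l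
          · subst hl
            simp [Matrix.updateRow_apply, B, E, Finset.sum_apply, erase_insert hj, Pi.single_apply]
          · have hl' : ¬ l = p := fun h => hl h.symm
            simp [Matrix.updateRow_apply, B, E, Finset.sum_apply, Pi.single_apply, hl, hl']
      · by_cases hpT : p ∈ T
        · have h1 : p ∈ insert j T := mem_insert_of_mem hpT
          have h2 : (insert j T).erase p = insert j (T.erase p) := by
            rw [erase_insert_of_ne (fun h => hp h.symm)]
          have h3 : j ∉ T.erase p := fun h => hj (mem_of_mem_erase h)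
          rcases s with _ | l
          · simp [Matrix.updateRow_apply, B, hA, hp, hpT]
          · by_cases hl : p = l
            · subst hl
              simp [Matrix.updateRow_apply, B, hA, hp, hpT, h2, sum_insert h3, ht']
              ring
            · simp [Matrix.updateRow_apply, B, hA, hp, hpT, hl]
        · have h1 : p ∉ insert j T := by simp [hp, hpT]
          simp [Matrix.updateRow_apply, B, hA, hp, hpT]
  have hsum : ∀ (s : Finset J) x (f : J → R) (g : J → Option J → R),
      F x (∑ k ∈ s, f k • g k) = ∑ k ∈ s, f k * F x (g k) := by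
    intro s x f g
    induction s using Finset.induction_on with
    | empty =>
      have := hsmul x 0 0
      simpa using this
    | insert b s hb ih => rw [sum_insert hb, sum_insert hb, hadd, hsmul, ih]
  rw [hrow, hadd, hadd, hsmul, hsmul, hself, hsum, hswap _ (E none), hZ]
  have h1 : ∀ k ∈ univ.erase j, (-a j k) * F (E (some j)) (E (some k)) =
      a j k * Z a u t' T (E (some k)) := by
    intro k _
    rw [hswap, hZ]; ring
  rw [sum_congr rfl h1]
  have h2 : ∑ k ∈ univ.erase j, a j k * Z a u t' T (E (some k)) =
      ∑ k ∈ T, a j k * Z a u t' T (E (some k)) := by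
    symm
    refine sum_subset ?_ ?_
    · intro k hk
      exact mem_erase.2 ⟨fun h => hj (h ▸ hk), mem_univ _⟩
    · intro k _ hk
      rw [Z_out a u t' hk, mul_zero]
  rw [h2]
  ring

/-- the alternating sum -/
def G (a : J → J → R) (u t : J → R) (S : Finset J) (x : Option J → R) : R :=
  ∑ T ∈ S.powerset, (-1) ^ T.card * (Z a u t T x * ∏ k ∈ S \ T, (t k + ∑ l ∈ T, a k l))

lemma G_out (a : J → J → R) (u t : J → R) {S : Finset J} {j : J} (hj : j ∉ S) :
    G a u t S (E (some j)) = 0 := by
  unfold G
  refine sum_eq_zero fun T hT => ?_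
  rw [Z_out a u t (fun h => hj (mem_powerset.1 hT h)), zero_mul, mul_zero]

lemma G_rec (a : J → J → R) (u t : J → R) {S : Finset J} {j : J} (hj : j ∉ S) :
    G a u t (insert j S) (E (some j)) = -(u j * G a u (fun k => t k + a k j) S (E none) +
      ∑ k ∈ S, a j k * G a u (fun k => t k + a k j) S (E (some k))) := by
  have h0 : G a u t (insert j S) (E (some j)) = ∑ T ∈ S.powerset, (-1) ^ (insert j T).card *
      (Z a u t (insert j T) (E (some j)) *
        ∏ k ∈ insert j S \ insert j T, (t k + ∑ l ∈ insert j T, a k l)) := by
    unfold G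
    rw [sum_powerset_insert hj]
    have : ∑ T ∈ S.powerset, (-1) ^ T.card * (Z a u t T (E (some j)) *
        ∏ k ∈ insert j S \ T, (t k + ∑ l ∈ T, a k l)) = 0 := by
      refine sum_eq_zero fun T hT => ?_
      rw [Z_out a u t (fun h => hj (mem_powerset.1 hT h)), zero_mul, mul_zero]
    rw [this, zero_add]
  rw [h0]
  have h1 : ∀ T ∈ S.powerset, (-1) ^ (insert j T).card *
      (Z a u t (insert j T) (E (some j)) *
        ∏ k ∈ insert j S \ insert j T, (t k + ∑ l ∈ insert j T, a k l)) =
      -(u j * ((-1) ^ T.card * (Z a u (fun k => t k + a k j) T (E none) *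
        ∏ k ∈ S \ T, (t k + a k j + ∑ l ∈ T, a k l))) +
      ∑ k ∈ S, a j k * ((-1) ^ T.card * (Z a u (fun k => t k + a k j) T (E (some k)) *
        ∏ k ∈ S \ T, (t k + a k j + ∑ l ∈ T, a k l)))) := by
    intro T hT
    have hTS := mem_powerset.1 hT
    have hjT : j ∉ T := fun h => hj (hTS h)
    have e1 : insert j S \ insert j T = S \ T := by
      ext x
      simp only [mem_sdiff, mem_insert, not_or]
      constructor
      · rintro ⟨h | h, h', h''⟩
        · exact absurd h h'
        · exact ⟨h, h''⟩
      · rintro ⟨h, h'⟩
        exact ⟨Or.inr h, fun e => hj (e ▸ h), h'⟩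
    have e2 : ∏ k ∈ S \ T, (t k + ∑ l ∈ insert j T, a k l) =
        ∏ k ∈ S \ T, (t k + a k j + ∑ l ∈ T, a k l) := by
      refine prod_congr rfl fun k _ => ?_
      rw [sum_insert hjT]; ring
    have e3 : ∑ k ∈ T, a j k * Z a u (fun k => t k + a k j) T (E (some k)) =
        ∑ k ∈ S, a j k * Z a u (fun k => t k + a k j) T (E (some k)) := by
      refine sum_subset hTS fun k _ hk => ?_
      rw [Z_out a u _ hk, mul_zero]
    rw [e1, e2, Z_rec a u t hjT, e3, card_insert_of_notMem hjT]
    set P := ∏ k ∈ S \ T, (t k + a k j + ∑ l ∈ T, a k l) with hP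
    have e4 : ∑ k ∈ S, a j k * ((-1) ^ T.card *
        (Z a u (fun k => t k + a k j) T (E (some k)) * P)) =
        (-1) ^ T.card * P * ∑ k ∈ S, a j k * Z a u (fun k => t k + a k j) T (E (some k)) := by
      rw [mul_sum]
      refine sum_congr rfl fun k _ => by ring
    rw [e4]
    ring
  rw [sum_congr rfl h1, sum_neg_distrib, sum_add_distrib, ← mul_sum, sum_comm]
  unfold G
  simp only [mul_sum]

lemma G_none (a : J → J → R) (u u' t : J → R) (S : Finset J) :
    G a u t S (E none) = G a u' t S (E none) := by
  unfold G
  refine sum_congr rfl fun T _ => ?_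
  rw [Z_none a u u' t T]

lemma G_none_rec (a : J → J → R) (t : J → R) {S : Finset J} {j : J} (hj : j ∉ S) :
    G a t t (insert j S) (E none) = t j * G a t t S (E none) +
      ∑ l ∈ S, a j l * G a t t S (E (some l)) + G a t t (insert j S) (E (some j)) := by
  have h0 : G a t t (insert j S) (E (some j)) = ∑ T ∈ S.powerset, (-1) ^ (insert j T).card *
      (Z a t t (insert j T) (E (some j)) *
        ∏ k ∈ insert j S \ insert j T, (t k + ∑ l ∈ insert j T, a k l)) := by
    unfold G
    rw [sum_powerset_insert hj]
    have : ∑ T ∈ S.powerset, (-1) ^ T.card * (Z a t t T (E (some j)) *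
        ∏ k ∈ insert j S \ T, (t k + ∑ l ∈ T, a k l)) = 0 := by
      refine sum_eq_zero fun T hT => ?_
      rw [Z_out a t t (fun h => hj (mem_powerset.1 hT h)), zero_mul, mul_zero]
    rw [this, zero_add]
  rw [h0]
  conv_lhs => unfold G
  rw [sum_powerset_insert hj]
  congr 1
  · have h1 : ∀ T ∈ S.powerset, (-1) ^ T.card * (Z a t t T (E none) *
        ∏ k ∈ insert j S \ T, (t k + ∑ l ∈ T, a k l)) =
        t j * ((-1) ^ T.card * (Z a t t T (E none) * ∏ k ∈ S \ T, (t k + ∑ l ∈ T, a k l))) +
        ∑ l ∈ S, a j l * ((-1) ^ T.card * (Z a t t T (E (some l)) *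
          ∏ k ∈ S \ T, (t k + ∑ l ∈ T, a k l))) := by
      intro T hT
      have hTS := mem_powerset.1 hT
      have hjT : j ∉ T := fun h => hj (hTS h)
      have e1 : insert j S \ T = insert j (S \ T) := by
        rw [insert_sdiff_of_notMem _ hjT]
      have e2 : j ∉ S \ T := fun h => hj (mem_sdiff.1 h).1
      rw [e1, prod_insert e2]
      set P := ∏ k ∈ S \ T, (t k + ∑ l ∈ T, a k l) with hP
      have e3 : ∑ l ∈ S, a j l * ((-1) ^ T.card * (Z a t t T (E (some l)) * P)) =
          (-1) ^ T.card * P * ∑ l ∈ T, a j l * Z a t t T (E (some l)) := by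
        rw [mul_sum]
        rw [← sum_subset hTS (f := fun l => a j l * ((-1) ^ T.card *
          (Z a t t T (E (some l)) * P)))]
        · refine sum_congr rfl fun k _ => by ring
        · intro k _ hk
          rw [Z_out a t t hk]; ring
      have e4 : ∑ l ∈ T, a j l * Z a t t T (E (some l)) =
          (∑ l ∈ T, a j l) * Z a t t T (E none) := by
        rw [sum_mul]
        refine sum_congr rfl fun l hl => ?_
        rw [Z_self a t hl]
      rw [e3, e4]
      ring
    rw [sum_congr rfl h1, sum_add_distrib, ← mul_sum, sum_comm]
    unfold G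
    simp only [mul_sum]
  · refine sum_congr rfl fun T _ => ?_
    rw [Z_self a t (mem_insert_self j T)]

lemma G_empty (a : J → J → R) (u t : J → R) : G a u t ∅ (E none) = 1 := by
  unfold G
  rw [powerset_empty, sum_singleton]
  simp only [card_empty, pow_zero, one_mul, empty_sdiff, prod_empty, mul_one, Z]
  have : B a u t ∅ (E none) = 1 := by
    ext x y
    rcases x with _ | k
    · simp [B, E, Matrix.one_apply, Pi.single_apply, eq_comm]
    · simp [B, Matrix.one_apply, Pi.single_apply, eq_comm]
  rw [this, Matrix.det_one]

/-- the two sums -/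
theorem G_main (a : J → J → R) : ∀ (n : ℕ) (S : Finset J), S.card = n → ∀ u t : J → R,
    G a u t S (E none) = (if S = ∅ then 1 else 0) ∧
    ∀ j ∈ S, G a u t S (E (some j)) = (-1) ^ S.card * hp a u j S := by
  intro n
  induction n with
  | zero =>
    intro S hS u t
    rw [card_eq_zero] at hS
    subst hS
    exact ⟨by rw [if_pos rfl]; exact G_empty a u t, by simp⟩
  | succ n ih =>
    intro S hS u t
    have h2 : ∀ u t : J → R, ∀ j ∈ S, G a u t S (E (some j)) = (-1) ^ S.card * hp a u j S := by
      intro u t j hj
      have hc : (S.erase j).card = n := by rw [card_erase_of_mem hj, hS]; rfl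
      obtain ⟨i1, i2⟩ := ih (S.erase j) hc u (fun k => t k + a k j)
      have hr := G_rec a u t (notMem_erase j S)
      rw [insert_erase hj] at hr
      rw [hr, i1, hp_rec a u hj]
      have e : ∑ k ∈ S.erase j, a j k * G a u (fun k => t k + a k j) (S.erase j) (E (some k)) =
          (-1) ^ (S.erase j).card * ∑ k ∈ S.erase j, a j k * hp a u k (S.erase j) := by
        rw [mul_sum]
        refine sum_congr rfl fun k hk => ?_
        rw [i2 k hk]; ring
      rw [e, hc, hS]
      by_cases hS1 : S = {j}
      · have h0 : S.erase j = ∅ := by rw [hS1]; simp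
        have hn : n = 0 := by rw [← hc, h0]; rfl
        rw [if_pos h0, if_pos hS1, h0, hn]
        simp
      · have h0 : S.erase j ≠ ∅ := by
          intro h
          apply hS1
          rw [← insert_erase hj, h]; rfl
        rw [if_neg h0, if_neg hS1, pow_succ]
        ring
    refine ⟨?_, h2 u t⟩
    obtain ⟨j, hj⟩ : S.Nonempty := by rw [← card_pos]; omega
    have hc : (S.erase j).card = n := by rw [card_erase_of_mem hj, hS]; rfl
    obtain ⟨i1, i2⟩ := ih (S.erase j) hc t t
    have hr := G_none_rec a t (notMem_erase j S)
    rw [insert_erase hj] at hr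
    rw [G_none a u t t S, hr, i1, h2 t t j hj, hp_rec a t hj]
    have e : ∑ l ∈ S.erase j, a j l * G a t t (S.erase j) (E (some l)) =
        (-1) ^ n * ∑ k ∈ S.erase j, a j k * hp a t k (S.erase j) := by
      rw [mul_sum]
      refine sum_congr rfl fun k hk => ?_
      rw [i2 k hk, hc]; ring
    rw [e, hS, if_neg (Nonempty.ne_empty ⟨j, hj⟩)]
    by_cases hS1 : S = {j}
    · have h0 : S.erase j = ∅ := by rw [hS1]; simp
      have hn : n = 0 := by rw [← hc, h0]; rfl
      rw [if_pos h0, if_pos hS1, h0, hn]
      simp
    · have h0 : S.erase j ≠ ∅ := by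
        intro h
        apply hS1
        rw [← insert_erase hj, h]; rfl
      rw [if_neg h0, if_neg hS1, pow_succ]
      ring

lemma Z_sum (a : J → J → R) (u t : J → R) (T : Finset J) (p : J → R) (i : R) :
    Z a u t T (fun x => match x with | none => i | some k => p k) =
      i * Z a u t T (E none) + ∑ k, p k * Z a u t T (E (some k)) := by
  have h : (fun x => match x with | none => i | some k => p k : Option J → R) =
      i • E none + ∑ k, p k • E (some k) := by
    funext x
    rcases x with _ | k
    · simp [E, Finset.sum_apply, Pi.single_apply]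
    · simp [E, Finset.sum_apply, Pi.single_apply]
  rw [h, ← ZL_apply, map_add, map_sum, map_smul]
  simp only [map_smul, ZL_apply, smul_eq_mul]

/-- the solution of the recursion -/
def Ds (a : J → J → R) (u t : J → R) (p : J → R) (i : R) (T : Finset J) : R :=
  -Z a u t T (fun x => match x with | none => -i | some k => p k)

lemma Ds_rec (a : J → J → R) (u t : J → R) (p : J → R) (i : R) {S : Finset J}
    (hS : S.Nonempty) :
    ∑ T ∈ S.powerset, (-1) ^ T.card * (Ds a u t p i T * ∏ k ∈ S \ T, (t k + ∑ l ∈ T, a k l)) =
      -((-1) ^ S.card * ∑ j ∈ S, p j * hp a u j S) := by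
  obtain ⟨h1, h2⟩ := G_main a S.card S rfl u t
  rw [if_neg hS.ne_empty] at h1
  have h3 : ∑ T ∈ S.powerset, (-1) ^ T.card * (Ds a u t p i T *
      ∏ k ∈ S \ T, (t k + ∑ l ∈ T, a k l)) =
      i * G a u t S (E none) - ∑ j, p j * G a u t S (E (some j)) := by
    unfold G Ds
    have : ∀ T ∈ S.powerset, (-1 : R) ^ T.card *
        (-Z a u t T (fun x => match x with | none => -i | some k => p k) *
          ∏ k ∈ S \ T, (t k + ∑ l ∈ T, a k l)) =
        i * ((-1) ^ T.card * (Z a u t T (E none) * ∏ k ∈ S \ T, (t k + ∑ l ∈ T, a k l))) -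
        ∑ j, p j * ((-1) ^ T.card * (Z a u t T (E (some j)) *
          ∏ k ∈ S \ T, (t k + ∑ l ∈ T, a k l))) := by
      intro T _
      rw [Z_sum]
      set P := ∏ k ∈ S \ T, (t k + ∑ l ∈ T, a k l) with hP
      have e : ∑ j, p j * ((-1) ^ T.card * (Z a u t T (E (some j)) * P)) =
          (-1) ^ T.card * P * ∑ j, p j * Z a u t T (E (some j)) := by
        rw [mul_sum]
        refine sum_congr rfl fun k _ => by ring
      rw [e]
      ring
    rw [sum_congr rfl this, sum_sub_distrib, ← mul_sum, sum_comm]
    simp only [mul_sum]
  rw [h3, h1, mul_zero, zero_sub]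
  congr 1
  rw [mul_sum, ← sum_subset (subset_univ S) (f := fun j => p j * G a u t S (E (some j)))]
  · refine sum_congr rfl fun j hj => ?_
    rw [h2 j hj]; ring
  · intro j _ hj
    rw [G_out a u t hj, mul_zero]

omit [Fintype J] in
/-- changing the weights of the edges -/
lemma hp_weights (c a : J → J → R) (q e : J → R) (ha : ∀ j k, j ≠ k → a j k = -e k * c j k) :
    ∀ (n : ℕ) (S : Finset J), S.card = n → ∀ j ∈ S,
      -e j * hp a q j S = (∏ k ∈ S, -e k) * hp c q j S := by
  intro n
  induction n with
  | zero =>
    intro S hS j hj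
    rw [card_eq_zero] at hS
    subst hS
    simp at hj
  | succ n ih =>
    intro S hS j hj
    have hc : (S.erase j).card = n := by rw [card_erase_of_mem hj, hS]; rfl
    rw [hp_rec a q hj, hp_rec c q hj, ← mul_prod_erase S (fun k => -e k) hj]
    have h1 : ∑ k ∈ S.erase j, a j k * hp a q k (S.erase j) =
        (∏ k ∈ S.erase j, -e k) * ∑ k ∈ S.erase j, c j k * hp c q k (S.erase j) := by
      rw [mul_sum]
      refine sum_congr rfl fun k hk => ?_
      rw [ha j k (ne_of_mem_erase hk).symm]
      have := ih (S.erase j) hc k hk
      linear_combination c j k * this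
    rw [h1]
    by_cases hS1 : S = {j}
    · have h0 : S.erase j = ∅ := by rw [hS1]; simp
      rw [h0]; simp
    · rw [if_neg hS1]; ring

/-- the recursion has only one solution -/
lemma uniq {F : Type} [Field F] (w : J → Finset J → F) (X : Finset J → F) (D D' : Finset J → F)
    (h0 : D ∅ = D' ∅)
    (h1 : ∀ S, S.Nonempty →
      ∑ T ∈ S.powerset, (-1) ^ T.card * (D T * ∏ k ∈ S \ T, w k T) = X S)
    (h2 : ∀ S, S.Nonempty →
      ∑ T ∈ S.powerset, (-1) ^ T.card * (D' T * ∏ k ∈ S \ T, w k T) = X S) :
    ∀ (n : ℕ) (S : Finset J), S.card = n → D S = D' S := by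
  intro n
  induction n using Nat.strong_induction_on with
  | _ n ih =>
    intro S hS
    rcases S.eq_empty_or_nonempty with h | h
    · rw [h, h0]
    · have e1 := h1 S h
      rw [← h2 S h] at e1
      have hS' : S ∈ S.powerset := mem_powerset_self S
      rw [← sum_erase_add _ _ hS', ← sum_erase_add _ _ hS'] at e1
      have e2 : ∑ T ∈ S.powerset.erase S, (-1) ^ T.card * (D T * ∏ k ∈ S \ T, w k T) =
          ∑ T ∈ S.powerset.erase S, (-1) ^ T.card * (D' T * ∏ k ∈ S \ T, w k T) := by
        refine sum_congr rfl fun T hT => ?_
        rw [mem_erase, mem_powerset] at hT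
        rw [ih T.card (hS ▸ card_lt_card (hT.2.ssubset_of_ne hT.1)) T rfl]
      rw [e2] at e1
      have e3 := add_left_cancel e1
      rw [sdiff_self] at e3
      have e4 : ((-1 : F)) ^ S.card ≠ 0 := pow_ne_zero _ (by simp)
      have e5 := mul_left_cancel₀ e4 e3
      simpa using e5

/-- S_DETN -/
theorem detn : S_DETN := by
  intro F _ ι J _ _ c q t e i D hc he hD0 hD hker
  set a : J → J → ZMod 3 := fun k l => -(e l * c l k) with ha
  set p : J → ZMod 3 := fun k => -e k * q k with hp'
  have hι : Function.Injective ι := RingHom.injective ι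
  have hDs0 : Ds a q t p i ∅ = i := by
    unfold Ds
    rw [Z_sum]
    have h1 : Z a q t ∅ (E none) = 1 := by
      have := G_empty a q t
      simpa [G] using this
    rw [h1, sum_eq_zero (fun k _ => by rw [Z_out a q t (notMem_empty k), mul_zero])]
    ring
  have hrec : ∀ S, S.Nonempty → ∑ T ∈ S.powerset, (-1) ^ T.card * (ι (Ds a q t p i T) *
      ∏ k ∈ S \ T, ι (t k + ∑ l ∈ T, -(e l * c l k))) =
        -(ι (∏ k ∈ S, -e k) * ((-1) ^ S.card * ι (phi c q S))) := by
    intro S hS
    have h1 := Ds_rec a q t p i hS
    have h2 : ∑ j ∈ S, p j * hp a q j S = (∏ k ∈ S, -e k) * phi c q S := by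
      unfold phi
      rw [mul_sum]
      refine sum_congr rfl fun j hj => ?_
      have := hp_weights c a q e (fun j k hjk => by
        simp only [ha]; rw [hc j k hjk]; ring) S.card S rfl j hj
      simp only [hp']
      linear_combination q j * this
    rw [h2] at h1
    have h3 := congrArg ι h1
    simp only [map_sum, map_mul, map_neg, map_pow, map_one, map_prod] at h3
    simp only [ha] at h3
    simp only [map_mul, map_neg, map_prod] at *
    rw [h3]
    ring
  have huniq := uniq (fun k T => ι (t k + ∑ l ∈ T, -(e l * c l k)))
    (fun S => -(ι (∏ k ∈ S, -e k) * ((-1) ^ S.card * ι (phi c q S)))) D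
    (fun T => ι (Ds a q t p i T)) (by rw [hD0, hDs0]) hD hrec (univ : Finset J).card univ rfl
  rw [huniq]
  intro h0
  have h1 : Ds a q t p i univ = 0 := hι (by rw [h0, map_zero])
  unfold Ds Z at h1
  rw [neg_eq_zero] at h1
  obtain ⟨v, hv0, hv⟩ := Matrix.exists_mulVec_eq_zero_iff.2 h1
  apply hv0
  have hk := hker (fun k => v (some k)) (v none) ?_ ?_
  · funext x
    rcases x with _ | k
    · exact hk.2
    · exact hk.1 k
  · intro j
    have := congrFun hv (some j)
    simp only [Matrix.mulVec, dotProduct, B, mem_univ, if_true, Fintype.sum_option,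
      Pi.zero_apply, ha] at this
    rw [← sum_erase_add _ _ (mem_univ j), if_pos rfl] at this
    rw [← sum_erase_add _ _ (mem_univ j), sub_self, mul_zero, add_zero]
    have e1 : ∑ x ∈ univ.erase j, (if j = x then t j + ∑ m ∈ univ.erase j, -(e m * c m j)
        else - -(e x * c x j)) * v (some x) =
        ∑ x ∈ univ.erase j, e x * c j x * v (some x) := by
      refine sum_congr rfl fun x hx => ?_
      have hx' : j ≠ x := (ne_of_mem_erase hx).symm
      rw [if_neg hx', hc j x hx']; ring
    have e2 : ∑ m ∈ univ.erase j, -(e m * c m j) = -∑ m ∈ univ.erase j, e m * c j m := by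
      rw [← sum_neg_distrib]
      refine sum_congr rfl fun x hx => ?_
      rw [hc j x (ne_of_mem_erase hx).symm]
    have e3 : ∑ k ∈ univ.erase j, -e k * c j k * (v (some k) - v (some j)) =
        (∑ m ∈ univ.erase j, e m * c j m) * v (some j) -
          ∑ x ∈ univ.erase j, e x * c j x * v (some x) := by
      rw [sum_mul, ← sum_sub_distrib]
      exact sum_congr rfl fun x _ => by ring
    rw [e1, e2] at this
    rw [e3]
    linear_combination -this
  · have := congrFun hv none
    simp only [Matrix.mulVec, dotProduct, B, Fintype.sum_option, Pi.zero_apply] at this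
    simp only [hp'] at this
    have e : ∑ k, -e k * v (some k) * q k = ∑ k, -e k * q k * v (some k) :=
      sum_congr rfl fun k _ => by ring
    rw [e]
    linear_combination this

end Pool.Agent.D0H2.L9
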